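import Pool.Agent.H74.TSD.Targets

/-! Counting in a window. -/

set_option autoImplicit false

open MeasureTheory Set Metric Filter
open scoped ENNReal Pointwise Topology

namespace Pool.Agent.H20.TSD

open Pool.Agent.H74.TSD Pool.Agent.H73.TS

/-- expansion in the dual basis -/
theorem dual_expand {d : ℕ} (w : Fin d → E d) (φ : Fin d → (E d →L[ℝ] ℝ))
    (hφ : ∀ i j, φ i (w j) = if i = j then 1 else 0) (x : E d) : x = ∑ i, φ i x • w i := by
  have hli : LinearIndependent ℝ w := by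
    rw [Fintype.linearIndependent_iff]
    intro g hg i
    have h1 := congrArg (φ i) hg
    rw [map_sum, map_zero] at h1
    simpa [hφ] using h1
  have hsp : Submodule.span ℝ (Set.range w) = ⊤ := by
    apply hli.span_eq_top_of_card_eq_finrank'
    simp
  have hx : x ∈ Submodule.span ℝ (Set.range w) := by
    rw [hsp]
    exact Submodule.mem_top
  obtain ⟨c, hc⟩ := (Submodule.mem_span_range_iff_exists_fun ℝ).1 hx
  have hc' : ∀ i, φ i x = c i := by
    intro i
    rw [← hc, map_sum]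
    simp [hφ]
  rw [← hc]
  refine Finset.sum_congr rfl fun i _ => ?_
  rw [hc, hc']

/-- the area does not decrease if a set is added -/
theorem ar_add_ge {Z C : Set (ℝ × ℝ)} (hZ : IsCompact Z) (hC : IsCompact C) (hne : Z.Nonempty) :
    ar C ≤ ar (Z + C) := by
  obtain ⟨a, ha⟩ := hne
  unfold ar
  have h1 : volume C = volume (a +ᵥ C) := (measure_vadd volume a C).symm
  have h2 : a +ᵥ C ⊆ Z + C := by
    rintro _ ⟨x, hx, rfl⟩
    exact Set.add_mem_add ha hx
  rw [h1]
  exact ENNReal.toReal_mono (hZ.add hC).measure_lt_top.ne (measure_mono h2)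

theorem sum_bounds {n : ℕ} (s : Fin n → ℝ) (m : Fin n → ℝ) (x : Fin n → ℝ)
    (hx : ∀ i, m i ≤ x i ∧ x i < m i + 1) :
    ∑ i, (if 0 ≤ s i then s i * m i else s i * (m i + 1)) ≤ ∑ i, x i * s i ∧
    ∑ i, x i * s i ≤ ∑ i, (if 0 ≤ s i then s i * m i else s i * (m i + 1)) + ∑ i, |s i| := by
  constructor
  · refine Finset.sum_le_sum fun i _ => ?_
    obtain ⟨h1, h2⟩ := hx i
    split_ifs with h
    · nlinarith
    · push Not at h
      nlinarith
  · rw [← Finset.sum_add_distrib]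
    refine Finset.sum_le_sum fun i _ => ?_
    obtain ⟨h1, h2⟩ := hx i
    split_ifs with h
    · rw [abs_of_nonneg h]
      nlinarith
    · push Not at h
      rw [abs_of_neg h]
      nlinarith

theorem sum_lt_one {n : ℕ} (s : Fin n → ℝ) (m : Fin n → ℝ) (x y : Fin n → ℝ)
    (hx : ∀ i, m i ≤ x i ∧ x i < m i + 1) (hy : ∀ i, m i ≤ y i ∧ y i < m i + 1)
    (hs : ∑ i, |s i| ≤ 1) : ∑ i, x i * s i - ∑ i, y i * s i < 1 := by
  rw [← Finset.sum_sub_distrib]
  by_contra hcon
  push Not at hcon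
  have hd : ∀ i, |x i - y i| < 1 := by
    intro i
    obtain ⟨h1, h2⟩ := hx i
    obtain ⟨h3, h4⟩ := hy i
    rw [abs_lt]
    constructor <;> linarith
  have hle : ∀ i, x i * s i - y i * s i ≤ |s i| := by
    intro i
    calc x i * s i - y i * s i = (x i - y i) * s i := by ring
      _ ≤ |(x i - y i) * s i| := le_abs_self _
      _ = |x i - y i| * |s i| := abs_mul _ _
      _ ≤ 1 * |s i| := mul_le_mul_of_nonneg_right (hd i).le (abs_nonneg _)
      _ = |s i| := one_mul _
  by_cases hall : ∀ i, s i = 0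
  · have : ∑ i, (x i * s i - y i * s i) = 0 := Finset.sum_eq_zero fun i _ => by
      rw [hall i]
      ring
    linarith
  · push Not at hall
    obtain ⟨j, hj⟩ := hall
    have hlt : ∑ i, (x i * s i - y i * s i) < ∑ i, |s i| := by
      refine Finset.sum_lt_sum (fun i _ => hle i) ⟨j, Finset.mem_univ j, ?_⟩
      calc x j * s j - y j * s j = (x j - y j) * s j := by ring
        _ ≤ |(x j - y j) * s j| := le_abs_self _
        _ = |x j - y j| * |s j| := abs_mul _ _
        _ < 1 * |s j| := mul_lt_mul_of_pos_right (hd j) (abs_pos.2 hj)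
        _ = |s j| := one_mul _
    linarith

theorem pf_CC (h1 : T_W1) (hs : T_SIN) (hw : T_W2) (hc : T_CW) (hp : T_PT) : T_CC := by
  classical
  intro n w v A C K T φ hA hiA hG hφ hK hcK hiK hAW hTS m a₀ a₁ b S hST hb hS
  have hAne : A.Nonempty := hiA.mono interior_subset
  have hKne : K.Nonempty := hiK.mono interior_subset
  set Z : Set (ℝ × ℝ) := Set.Icc (a₀, a₁) (a₀ + b, a₁ + b) with hZ
  have hZc : IsCompact Z := isCompact_Icc
  have hZx : Convex ℝ Z := convex_Icc _ _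
  have hZne : Z.Nonempty := ⟨(a₀, a₁), le_rfl, by
    constructor <;> simp only <;> linarith⟩
  rcases S.eq_empty_or_nonempty with rfl | hSne
  · have := ar_add_ge hZc hG.cpt hZne
    rw [Finset.card_empty, Nat.cast_zero]
    linarith
  obtain ⟨-, hsm, -, hpos, -⟩ := hw A hA hiA
  set Φ : E (n + 2) → ℝ × ℝ := fun u => (φ 0 u, φ 1 u) with hΦ
  have main : ∀ t ∈ S, ∀ s ∈ S, t ≠ s → ∃ P : ℝ × ℝ, wdt2 A P = 1 ∧ ∃ τ : ℝ, ev P (Φ t) ≤ τ ∧
      τ + 1 ≤ ev P (Φ s) ∧ ∀ u ∈ S, ev P (Φ u) ≤ τ ∨ τ + 1 ≤ ev P (Φ u) := by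
    intro t ht s hsS hts
    have hTS' : TotSepIn (Set.univ : Set (E (n + 2) →L[ℝ] ℝ)) K T := by
      intro t ht s hs hts
      obtain ⟨f, c, h1, h2, h3, h4⟩ := hTS t ht s hs hts
      exact ⟨f, Set.mem_univ _, c, h1, h2, h3, h4⟩
    obtain ⟨g, -, hg1, c, hgt, hgs, hgu⟩ := hs (n + 2) Set.univ K T hK hcK hiK
      (fun _ _ _ => Set.mem_univ _) hTS' t (hST ht) s (hST hsS) hts
    have hcw := hc n w v A K hA hAne hK hKne hAW g
    rw [hg1] at hcw
    set P : ℝ × ℝ := (g (w 0), g (w 1)) with hP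
    set σ : Fin n → ℝ := fun i => g (w i.succ.succ) with hσ
    set r : E (n + 2) → ℝ := fun u => ∑ i : Fin n, φ i.succ.succ u * σ i with hr
    have hgexp : ∀ u, g u = ev P (Φ u) + r u := by
      intro u
      conv_lhs => rw [dual_expand w φ hφ u]
      rw [map_sum, Fin.sum_univ_succ, Fin.sum_univ_succ]
      simp only [map_smul, smul_eq_mul, ev, hP, hΦ, hr, hσ]
      have e1 : (Fin.succ 0 : Fin (n + 2)) = 1 := rfl
      rw [e1]
      ring
    set ρ : ℝ := ∑ i, (if 0 ≤ σ i then σ i * (m i : ℝ) else σ i * ((m i : ℝ) + 1)) with hρ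
    have hωnn : 0 ≤ wdt2 A P := by
      by_cases hP0 : P = 0
      · have := hsm P 0
        rw [zero_smul, abs_zero, zero_mul] at this
        rw [hP0, this]
      · exact (hpos P hP0).le
    have hsnn : 0 ≤ ∑ i, |σ i| := Finset.sum_nonneg fun i _ => abs_nonneg _
    have hrb : ∀ u ∈ S, ρ ≤ r u ∧ r u ≤ ρ + ∑ i, |σ i| := by
      intro u hu
      exact sum_bounds σ (fun i => (m i : ℝ)) (fun i => φ i.succ.succ u)
        (fun i => (hS u hu).2.2.2.2 i)
    have hP0 : P ≠ 0 := by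
      intro hP0
      have e0 : ∀ x, ev P x = 0 := by
        intro x
        rw [hP0]
        simp [ev]
      have e1 := hgexp t
      have e2 := hgexp s
      rw [e0, zero_add] at e1 e2
      have := sum_lt_one σ (fun i => (m i : ℝ)) (fun i => φ i.succ.succ s)
        (fun i => φ i.succ.succ t) (fun i => (hS s hsS).2.2.2.2 i)
        (fun i => (hS t ht).2.2.2.2 i) (by linarith)
      have e3 : r s - r t < 1 := this
      linarith
    have hω := hpos P hP0
    set ω := wdt2 A P with hωdef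
    refine ⟨ω⁻¹ • P, by rw [hsm, abs_of_pos (inv_pos.2 hω), inv_mul_cancel₀ hω.ne'],
      (c - ρ) / ω, ?_⟩
    have hev : ∀ u, ev (ω⁻¹ • P) (Φ u) = ev P (Φ u) / ω := by
      intro u
      simp only [ev, Prod.smul_fst, Prod.smul_snd, smul_eq_mul]
      field_simp
    have lo : ∀ u ∈ S, g u ≤ c → ev (ω⁻¹ • P) (Φ u) ≤ (c - ρ) / ω := by
      intro u hu h
      rw [hev, div_le_div_iff_of_pos_right hω]
      have := hgexp u
      have := (hrb u hu).1
      linarith
    have hi : ∀ u ∈ S, c + 1 ≤ g u → (c - ρ) / ω + 1 ≤ ev (ω⁻¹ • P) (Φ u) := by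
      intro u hu h
      rw [hev, div_add_one hω.ne', div_le_div_iff_of_pos_right hω]
      have := hgexp u
      have := (hrb u hu).2
      linarith
    exact ⟨lo t ht hgt, hi s hsS hgs, fun u hu => (hgu u (hST hu)).imp (lo u hu) (hi u hu)⟩
  have hinj : Set.InjOn Φ (S : Set (E (n + 2))) := by
    intro t ht s hs' hEq
    by_contra hne
    obtain ⟨P, -, τ, h2, h3, -⟩ := main t ht s hs' hne
    rw [hEq] at h2
    linarith
  have hcard : (S.image Φ).card = S.card := Finset.card_image_of_injOn hinj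
  rw [← hcard]
  have := hp {p | wdt2 A p = 1} 1 C Z (S.image Φ) one_pos hG hZc hZx ?_ (hSne.image Φ) ?_
  · linarith
  · intro x hx
    rw [Finset.coe_image] at hx
    obtain ⟨u, hu, rfl⟩ := hx
    obtain ⟨b1, b2, b3, b4, -⟩ := hS u hu
    exact ⟨⟨b1, b3⟩, ⟨b2, b4⟩⟩
  · intro x hx y hy hxy
    obtain ⟨t, ht, rfl⟩ := Finset.mem_image.1 hx
    obtain ⟨s, hs', rfl⟩ := Finset.mem_image.1 hy
    obtain ⟨P, hP1, τ, h2, h3, h4⟩ := main t ht s hs' (fun h => hxy (by rw [h]))
    refine ⟨P, hP1, τ, Or.inl ⟨h2, h3⟩, fun z hz => ?_⟩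
    obtain ⟨u, hu, rfl⟩ := Finset.mem_image.1 hz
    exact h4 u hu

end Pool.Agent.H20.TSD
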