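import Pool.Agent.H74.TSD.Targets

/-! The test body of a planar body. -/

set_option autoImplicit false

open MeasureTheory Set Metric Filter
open scoped ENNReal Pointwise Topology

namespace Pool.Agent.H20.TSD

open Pool.Agent.H74.TSD Pool.Agent.H73.TS

theorem pf_G2 (h : T_W2) : T_G2 := by
  intro A hA hi hwd
  obtain ⟨-, -, -, -, p, q, hp, hq, hpq, -⟩ := h A hA hi
  obtain ⟨C, hC⟩ : ∃ C : Set (ℝ × ℝ), C = {x | ∀ p, wdt2 A p = 1 → |ev p x| ≤ 1 / 2} := ⟨_, rfl⟩
  have hmem : ∀ x, x ∈ C ↔ ∀ p, wdt2 A p = 1 → |ev p x| ≤ 1 / 2 := by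
    intro x
    rw [hC]
    rfl
  refine ⟨C, ⟨?_, ?_, ?_, ?_, ?_⟩, ⟨0, ?_⟩⟩
  · refine isCompact_of_isClosed_isBounded ?_ ?_
    · have e : C = ⋂ p : ℝ × ℝ, ⋂ (_ : wdt2 A p = 1), {x | |ev p x| ≤ 1 / 2} := by
        ext x
        rw [hmem]
        simp
      rw [e]
      refine isClosed_iInter fun p => isClosed_iInter fun _ => ?_
      refine isClosed_le ?_ continuous_const
      unfold ev
      fun_prop
    · refine (Metric.isBounded_iff_subset_closedBall 0).2
        ⟨(|p.1| + |p.2| + |q.1| + |q.2|) / wd p q, fun x hx => ?_⟩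
      have h1 := (hmem x).1 hx p hp
      have h2 := (hmem x).1 hx q hq
      have n1 := abs_nonneg p.1
      have n2 := abs_nonneg p.2
      have n3 := abs_nonneg q.1
      have n4 := abs_nonneg q.2
      have e1 : x.1 * wd p q = ev p x * q.2 - ev q x * p.2 := by
        simp only [wd, ev]
        ring
      have e2 : x.2 * wd p q = ev q x * p.1 - ev p x * q.1 := by
        simp only [wd, ev]
        ring
      have b : ∀ s t u v : ℝ, |s| ≤ 1 / 2 → |t| ≤ 1 / 2 → |s * u - t * v| ≤ |u| + |v| := by
        intro s t u v hs ht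
        calc |s * u - t * v| ≤ |s * u| + |t * v| := abs_sub _ _
          _ = |s| * |u| + |t| * |v| := by rw [abs_mul, abs_mul]
          _ ≤ 1 * |u| + 1 * |v| := by gcongr <;> linarith
          _ = |u| + |v| := by ring
      rw [mem_closedBall, dist_zero_right, Prod.norm_def]
      refine max_le ?_ ?_
      · rw [Real.norm_eq_abs, le_div_iff₀ hpq]
        calc |x.1| * wd p q = |x.1 * wd p q| := by rw [abs_mul, abs_of_pos hpq]
          _ ≤ |q.2| + |p.2| := by
            rw [e1]
            exact b _ _ _ _ h1 h2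
          _ ≤ _ := by linarith
      · rw [Real.norm_eq_abs, le_div_iff₀ hpq]
        calc |x.2| * wd p q = |x.2 * wd p q| := by rw [abs_mul, abs_of_pos hpq]
          _ ≤ |p.1| + |q.1| := by
            rw [e2]
            exact b _ _ _ _ h2 h1
          _ ≤ _ := by linarith
  · intro x hx y hy a b ha hb hab
    rw [hmem] at hx hy ⊢
    intro r hr
    have e : ev r (a • x + b • y) = a * ev r x + b * ev r y := by
      simp only [ev, Prod.fst_add, Prod.snd_add, Prod.smul_fst, Prod.smul_snd, smul_eq_mul]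
      ring
    rw [e]
    calc |a * ev r x + b * ev r y| ≤ |a * ev r x| + |b * ev r y| := abs_add_le _ _
      _ = a * |ev r x| + b * |ev r y| := by
        rw [abs_mul, abs_mul, abs_of_nonneg ha, abs_of_nonneg hb]
      _ ≤ a * (1 / 2) + b * (1 / 2) := by
        gcongr
        · exact hx r hr
        · exact hy r hr
      _ = 1 / 2 := by rw [← add_mul, hab, one_mul]
  · intro x hx
    rw [hmem] at hx ⊢
    intro r hr
    have e : ev r (-x) = - ev r x := by
      simp only [ev, Prod.fst_neg, Prod.snd_neg]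
      ring
    rw [e, abs_neg]
    exact hx r hr
  · intro r hr x hx
    exact (hmem x).1 hx r hr
  · intro r hr
    rw [hmem]
    intro r' hr'
    have e : ev r' ((1 / (2 * 1) : ℝ) • rot r) = 1 / 2 * wd r r' := by
      simp only [ev, wd, rot, Prod.smul_fst, Prod.smul_snd, smul_eq_mul]
      ring
    rw [e, abs_mul, abs_of_pos (by norm_num : (0 : ℝ) < 1 / 2)]
    have := hwd r r' hr hr'
    linarith
  · rw [hmem]
    intro r _
    simp [ev]

end Pool.Agent.H20.TSD
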