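import Pool.Agent.H74.TSD.Targets

/-! The width of a planar body. -/

set_option autoImplicit false

open MeasureTheory Set Metric Filter
open scoped ENNReal Pointwise Topology

namespace Pool.Agent.H20.TSD

open Pool.Agent.H74.TSD Pool.Agent.H73.TS

theorem ev_cont (p : ℝ × ℝ) : Continuous (ev p) := by
  unfold ev
  fun_prop

theorem wdt2_ext {A : Set (ℝ × ℝ)} (hA : IsCompact A) (hne : A.Nonempty) (p : ℝ × ℝ) :
    ∃ x ∈ A, ∃ y ∈ A, wdt2 A p = ev p x - ev p y ∧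
      ∀ z ∈ A, ev p y ≤ ev p z ∧ ev p z ≤ ev p x := by
  obtain ⟨x, hx, hx2⟩ := hA.exists_isMaxOn hne (ev_cont p).continuousOn
  obtain ⟨y, hy, hy2⟩ := hA.exists_isMinOn hne (ev_cont p).continuousOn
  refine ⟨x, hx, y, hy, ?_, fun z hz => ⟨hy2 hz, hx2 hz⟩⟩
  have h1 : IsGreatest (ev p '' A) (ev p x) :=
    ⟨mem_image_of_mem _ hx, by rintro _ ⟨z, hz, rfl⟩; exact hx2 hz⟩
  have h2 : IsLeast (ev p '' A) (ev p y) :=
    ⟨mem_image_of_mem _ hy, by rintro _ ⟨z, hz, rfl⟩; exact hy2 hz⟩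
  unfold wdt2
  rw [h1.csSup_eq, h2.csInf_eq]

theorem le_wdt2 {A : Set (ℝ × ℝ)} (hA : IsCompact A) (hne : A.Nonempty) (p : ℝ × ℝ)
    {z z' : ℝ × ℝ} (hz : z ∈ A) (hz' : z' ∈ A) : ev p z - ev p z' ≤ wdt2 A p := by
  obtain ⟨x, hx, y, hy, h, h2⟩ := wdt2_ext hA hne p
  rw [h]
  linarith [(h2 z hz).2, (h2 z' hz').1]

theorem ev_smul (a : ℝ) (p x : ℝ × ℝ) : ev (a • p) x = a * ev p x := by
  simp only [ev, Prod.smul_fst, Prod.smul_snd, smul_eq_mul]
  ring

theorem wdt2_smul {A : Set (ℝ × ℝ)} (hA : IsCompact A) (hne : A.Nonempty) (p : ℝ × ℝ) (a : ℝ) :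
    wdt2 A (a • p) = |a| * wdt2 A p := by
  obtain ⟨x, hx, y, hy, h, -⟩ := wdt2_ext hA hne p
  obtain ⟨x', hx', y', hy', h', -⟩ := wdt2_ext hA hne (a • p)
  apply le_antisymm
  · rw [h', ev_smul, ev_smul, ← mul_sub]
    have h1 := le_wdt2 hA hne p hx' hy'
    have h2 := le_wdt2 hA hne p hy' hx'
    have h3 : |ev p x' - ev p y'| ≤ wdt2 A p := abs_le.2 ⟨by linarith, h1⟩
    calc a * (ev p x' - ev p y') ≤ |a * (ev p x' - ev p y')| := le_abs_self _
      _ = |a| * |ev p x' - ev p y'| := abs_mul _ _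
      _ ≤ |a| * wdt2 A p := mul_le_mul_of_nonneg_left h3 (abs_nonneg a)
  · rcases le_total 0 a with ha | ha
    · rw [abs_of_nonneg ha, h, mul_sub, ← ev_smul, ← ev_smul]
      exact le_wdt2 hA hne _ hx hy
    · rw [abs_of_nonpos ha, h]
      have h1 := le_wdt2 hA hne (a • p) hy hx
      rw [ev_smul, ev_smul] at h1
      linarith

theorem wdt2_cont {A : Set (ℝ × ℝ)} (hA : IsCompact A) (hne : A.Nonempty) :
    Continuous (fun p : ℝ × ℝ => wdt2 A p) := by
  obtain ⟨R, hR⟩ := hA.isBounded.exists_norm_le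
  have hR0 : 0 ≤ R := by
    obtain ⟨x, hx⟩ := hne
    exact (norm_nonneg x).trans (hR x hx)
  have hL : LipschitzWith (Real.toNNReal (4 * R)) (fun p : ℝ × ℝ => wdt2 A p) := by
    refine LipschitzWith.of_le_add_mul _ (fun p q => ?_)
    rw [Real.coe_toNNReal _ (by positivity)]
    obtain ⟨x, hx, y, hy, h, -⟩ := wdt2_ext hA hne p
    have h1 := le_wdt2 hA hne q hx hy
    have h2 := hR x hx
    have h3 := hR y hy
    have e1 : |x.1 - y.1| ≤ 2 * R := by
      have a1 := (norm_fst_le x).trans h2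
      have a2 := (norm_fst_le y).trans h3
      rw [Real.norm_eq_abs] at a1 a2
      calc |x.1 - y.1| ≤ |x.1| + |y.1| := abs_sub _ _
        _ ≤ 2 * R := by linarith
    have e2 : |x.2 - y.2| ≤ 2 * R := by
      have a1 := (norm_snd_le x).trans h2
      have a2 := (norm_snd_le y).trans h3
      rw [Real.norm_eq_abs] at a1 a2
      calc |x.2 - y.2| ≤ |x.2| + |y.2| := abs_sub _ _
        _ ≤ 2 * R := by linarith
    have d1 : |p.1 - q.1| ≤ dist p q := by
      have := norm_fst_le (p - q)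
      rw [dist_eq_norm]
      simpa using this
    have d2 : |p.2 - q.2| ≤ dist p q := by
      have := norm_snd_le (p - q)
      rw [dist_eq_norm]
      simpa using this
    have m1 : (p.1 - q.1) * (x.1 - y.1) ≤ dist p q * (2 * R) := by
      calc (p.1 - q.1) * (x.1 - y.1) ≤ |(p.1 - q.1) * (x.1 - y.1)| := le_abs_self _
        _ = |p.1 - q.1| * |x.1 - y.1| := abs_mul _ _
        _ ≤ dist p q * (2 * R) := mul_le_mul d1 e1 (abs_nonneg _) dist_nonneg
    have m2 : (p.2 - q.2) * (x.2 - y.2) ≤ dist p q * (2 * R) := by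
      calc (p.2 - q.2) * (x.2 - y.2) ≤ |(p.2 - q.2) * (x.2 - y.2)| := le_abs_self _
        _ = |p.2 - q.2| * |x.2 - y.2| := abs_mul _ _
        _ ≤ dist p q * (2 * R) := mul_le_mul d2 e2 (abs_nonneg _) dist_nonneg
    have key : ev p x - ev p y = (ev q x - ev q y) + ((p.1 - q.1) * (x.1 - y.1) +
        (p.2 - q.2) * (x.2 - y.2)) := by
      simp only [ev]
      ring
    rw [h, key]
    linarith
  exact hL.continuous

theorem wdt2_lower {A : Set (ℝ × ℝ)} (hA : IsCompact A) (hi : (interior A).Nonempty) :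
    ∃ δ : ℝ, 0 < δ ∧ ∀ p : ℝ × ℝ, δ * (|p.1| + |p.2|) ≤ wdt2 A p := by
  obtain ⟨z, hz⟩ := hi
  obtain ⟨ε, hε, hb⟩ := Metric.isOpen_iff.1 isOpen_interior z hz
  have hne : A.Nonempty := ⟨z, interior_subset hz⟩
  refine ⟨ε, hε, fun p => ?_⟩
  set v : ℝ × ℝ := ((ε / 2) * SignType.sign p.1, (ε / 2) * SignType.sign p.2) with hv
  have hs : ∀ t : ℝ, |((SignType.sign t : SignType) : ℝ)| ≤ 1 := by
    intro t
    rcases lt_trichotomy t 0 with h | h | h
    · simp [sign_neg h]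
    · simp [h]
    · simp [sign_pos h]
  have hvn : ‖v‖ < ε := by
    rw [Prod.norm_def]
    have h1 : ‖v.1‖ ≤ ε / 2 := by
      rw [hv, Real.norm_eq_abs, abs_mul, abs_of_pos (by positivity : 0 < ε / 2)]
      calc ε / 2 * |((SignType.sign p.1 : SignType) : ℝ)| ≤ ε / 2 * 1 := by
            gcongr
            exact hs _
        _ = ε / 2 := mul_one _
    have h2 : ‖v.2‖ ≤ ε / 2 := by
      rw [hv, Real.norm_eq_abs, abs_mul, abs_of_pos (by positivity : 0 < ε / 2)]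
      calc ε / 2 * |((SignType.sign p.2 : SignType) : ℝ)| ≤ ε / 2 * 1 := by
            gcongr
            exact hs _
        _ = ε / 2 := mul_one _
    exact lt_of_le_of_lt (max_le h1 h2) (by linarith)
  have hm1 : z + v ∈ A := interior_subset (hb (by
    rw [mem_ball, dist_eq_norm]
    simpa using hvn))
  have hm2 : z - v ∈ A := interior_subset (hb (by
    rw [mem_ball, dist_eq_norm]
    simpa using hvn))
  have h1 := le_wdt2 hA hne p hm1 hm2
  have h2 : ev p (z + v) - ev p (z - v) = ε * (|p.1| + |p.2|) := by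
    simp only [ev, Prod.fst_add, Prod.snd_add, Prod.fst_sub, Prod.snd_sub, hv]
    rw [← self_mul_sign p.1, ← self_mul_sign p.2]
    ring
  rw [← h2]
  exact h1

theorem pf_W2 : T_W2 := by
  intro A hA hi
  have hne : A.Nonempty := hi.mono interior_subset
  obtain ⟨δ, hδ, hlow⟩ := wdt2_lower hA hi
  have hpos : ∀ p : ℝ × ℝ, p ≠ 0 → 0 < wdt2 A p := by
    intro p hp
    refine lt_of_lt_of_le ?_ (hlow p)
    have : 0 < |p.1| + |p.2| := by
      by_contra hcon
      have h1 := abs_nonneg p.1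
      have h2 := abs_nonneg p.2
      apply hp
      have e1 : p.1 = 0 := abs_eq_zero.1 (by linarith)
      have e2 : p.2 = 0 := abs_eq_zero.1 (by linarith)
      exact Prod.ext e1 e2
    positivity
  refine ⟨wdt2_ext hA hne, wdt2_smul hA hne, wdt2_cont hA hne, hpos, ?_⟩
  set U : Set (ℝ × ℝ) := {p | wdt2 A p = 1} with hU
  have hUc : IsCompact U := by
    refine Metric.isCompact_of_isClosed_isBounded ?_ ?_
    · exact isClosed_singleton.preimage (wdt2_cont hA hne)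
    · refine (Metric.isBounded_iff_subset_closedBall 0).2 ⟨1 / δ, fun p hp => ?_⟩
      have h1 : wdt2 A p = 1 := hp
      have h2 := hlow p
      rw [h1] at h2
      rw [mem_closedBall, dist_zero_right, Prod.norm_def]
      have h3 : |p.1| + |p.2| ≤ 1 / δ := by
        rw [le_div_iff₀ hδ]
        linarith
      have h4 := abs_nonneg p.1
      have h5 := abs_nonneg p.2
      refine max_le ?_ ?_
      · rw [Real.norm_eq_abs]
        linarith
      · rw [Real.norm_eq_abs]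
        linarith
  have hnorm : ∀ p : ℝ × ℝ, p ≠ 0 → (wdt2 A p)⁻¹ • p ∈ U := by
    intro p hp
    have := hpos p hp
    change wdt2 A _ = 1
    rw [wdt2_smul hA hne, abs_of_pos (inv_pos.2 this), inv_mul_cancel₀ this.ne']
  set p₁ := (wdt2 A (1, 0))⁻¹ • ((1, 0) : ℝ × ℝ) with hp₁
  set q₁ := (wdt2 A (0, 1))⁻¹ • ((0, 1) : ℝ × ℝ) with hq₁
  have hp1 : p₁ ∈ U := hnorm _ (by simp)
  have hq1 : q₁ ∈ U := hnorm _ (by simp)
  have hcont : Continuous (fun x : (ℝ × ℝ) × (ℝ × ℝ) => |wd x.1 x.2|) := by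
    unfold wd
    fun_prop
  obtain ⟨⟨p, q⟩, hpq, hmax⟩ := (hUc.prod hUc).exists_isMaxOn ⟨(p₁, q₁), hp1, hq1⟩
    hcont.continuousOn
  have hmax' : ∀ p' q' : ℝ × ℝ, wdt2 A p' = 1 → wdt2 A q' = 1 → |wd p' q'| ≤ |wd p q| :=
    fun p' q' h1 h2 => hmax (show (p', q') ∈ U ×ˢ U from ⟨h1, h2⟩)
  have hpos1 : 0 < |wd p q| := by
    refine lt_of_lt_of_le ?_ (hmax' p₁ q₁ hp1 hq1)
    have h1 : 0 < (wdt2 A (1, 0))⁻¹ := inv_pos.2 (hpos _ (by simp))
    have h2 : 0 < (wdt2 A (0, 1))⁻¹ := inv_pos.2 (hpos _ (by simp))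
    have h3 : wd p₁ q₁ = (wdt2 A (1, 0))⁻¹ * (wdt2 A (0, 1))⁻¹ := by
      simp [wd, hp₁, hq₁]
    rw [h3]
    positivity
  rcases le_total 0 (wd p q) with hs | hs
  · rw [abs_of_nonneg hs] at hpos1 hmax'
    exact ⟨p, q, hpq.1, hpq.2, hpos1, hmax'⟩
  · rw [abs_of_nonpos hs] at hpos1 hmax'
    have e : wd q p = - wd p q := by
      unfold wd
      ring
    refine ⟨q, p, hpq.2, hpq.1, by rw [e]; exact hpos1, fun p' q' h1 h2 => ?_⟩
    rw [e]
    exact hmax' p' q' h1 h2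

end Pool.Agent.H20.TSD
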